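import Pool.Agent.Y911.DR.Sharp

/-!
# Large monochromatic sets for finitely many almost regressive colourings

Let `κ` be uncountable with `2 ^ μ < 2 ^ κ` for all `μ < κ`. Every finite number of almost
`Δ`-regressive colourings of the pairs of elements of `2 ^ κ` have a common monochromatic set of
more than `θ` elements, for every `θ < κ` (an Erdős–Rado theorem for regressive colourings), so one
of size `κ` if `κ` is a successor; in particular there is a monochromatic triple. The size `κ⁺`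
cannot be reached even with two colours, and a family of `λ` colourings with `κ ≤ 2 ^ λ` may have
no common monochromatic triple.
-/

set_option autoImplicit false

open Cardinal Set

namespace Pool.Agent.Results.MP_9a42a6_lc.LargeHomogeneousSets

universe u

/-- The set `2 ^ κ` of all functions from the ordinals below `κ` to a two-element set. -/
abbrev Branch (κ : Cardinal.{u}) : Type (u + 1) := Iio κ.ord → Bool

/-- The first difference of two branches: the least ordinal at which they differ. -/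
noncomputable def Delta {κ : Cardinal.{u}} (x y : Branch κ) : Ordinal.{u} :=
  sInf {i | ∃ h : i < κ.ord, x ⟨i, h⟩ ≠ y ⟨i, h⟩}

/-- `c` is an almost regressive colouring of the pairs of elements of `2 ^ κ`, with colours below
`κ`. -/
def AlmostRegressive (κ : Cardinal.{u}) (c : Branch κ → Branch κ → Ordinal.{u}) : Prop :=
  (∀ x y, c x y = c y x) ∧ (∀ x y, x ≠ y → c x y < κ.ord) ∧
    ∃ μ : Ordinal.{u}, μ < κ.ord ∧ ∀ x y, x ≠ y → c x y < max (Delta x y) μ

/-- `Y` is monochromatic for `c`, of the colour `ν`. -/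
def Monochromatic {κ : Cardinal.{u}} (c : Branch κ → Branch κ → Ordinal.{u}) (ν : Ordinal.{u})
    (Y : Set (Branch κ)) : Prop :=
  ∀ x ∈ Y, ∀ y ∈ Y, x ≠ y → c x y = ν

theorem delta_eq {κ : Cardinal.{u}} (x y : Branch κ) :
    Delta x y = Pool.Agent.Y911.DR.Delta x y := rfl

theorem two_lt {κ : Cardinal.{u}} (hκ : ℵ₀ < κ) : (2 : Ordinal.{u}) < κ.ord := by
  have h1 : ((2 : ℕ) : Ordinal.{u}) < Ordinal.omega0 := Ordinal.natCast_lt_omega0 2
  refine lt_of_lt_of_le (by exact_mod_cast h1) ?_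
  rw [← Cardinal.ord_aleph0]
  exact Cardinal.ord_le_ord.mpr hκ.le

theorem almostRegressive_of_lt_two {κ : Cardinal.{u}} (hκ : ℵ₀ < κ)
    {c : Branch κ → Branch κ → Ordinal.{u}} (h1 : ∀ x y, c x y = c y x) (h2 : ∀ x y, c x y < 2) :
    AlmostRegressive κ c :=
  ⟨h1, fun x y _ => (h2 x y).trans (two_lt hκ), 2, two_lt hκ, fun x y _ =>
    (h2 x y).trans_le (le_max_right _ _)⟩

theorem large {κ : Cardinal.{u}} (hκ : ℵ₀ < κ)
    (hpow : ∀ μ : Cardinal.{u}, μ < κ → (2 : Cardinal.{u}) ^ μ < (2 : Cardinal.{u}) ^ κ)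
    (θ : Cardinal.{u}) (hθ : θ < κ) (n : ℕ)
    (c : Fin n → Branch κ → Branch κ → Ordinal.{u}) (hc : ∀ i, AlmostRegressive κ (c i)) :
    ∃ Y : Set (Branch κ), Cardinal.lift.{u + 1} θ < #Y ∧
      ∀ i, ∃ ν : Ordinal.{u}, Monochromatic (c i) ν Y := by
  classical
  choose hsymm hlt μ hμ hreg using hc
  -- add the constant colouring, so that there is at least one
  let c' : Fin (n + 1) → Branch κ → Branch κ → Ordinal.{u} := Fin.cons (fun _ _ => 0) c
  let M : Ordinal.{u} := max 1 (Finset.univ.sup μ)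
  have hM : M < κ.ord := by
    refine max_lt ((show (1 : Ordinal.{u}) < 2 from one_lt_two).trans (two_lt hκ)) ?_
    rw [Finset.sup_lt_iff ((zero_le).trans_lt (two_lt hκ))]
    exact fun i _ => hμ i
  let l : Cardinal.{u} := max (max M.card ℵ₀) θ
  have hl1 : ℵ₀ ≤ l := (le_max_right _ _).trans (le_max_left _ _)
  have hlκ : l < κ := max_lt (max_lt (Cardinal.lt_ord.mp hM) hκ) hθ
  have hMl : M < (Pool.Agent.Y911.DR.least l).ord := by
    rw [Cardinal.lt_ord]
    exact ((le_max_left _ _).trans (le_max_left _ _)).trans_lt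
      (Pool.Agent.Y911.DR.lt_least l)
  obtain ⟨Y, hY, hmono⟩ := Pool.Agent.Y911.DR.main hl1 (hpow l hlκ) n c' (by
      intro k
      refine Fin.cases ?_ (fun i => ?_) k
      · intro x y; rfl
      · intro x y; exact hsymm i x y) M hMl (by
      intro k
      refine Fin.cases ?_ (fun i => ?_) k
      · intro x y _
        exact lt_max_of_lt_right (lt_max_of_lt_left zero_lt_one)
      · intro x y hxy
        refine (hreg i x y hxy).trans_le (max_le_max le_rfl ?_)
        exact (Finset.le_sup (f := μ) (Finset.mem_univ i)).trans (le_max_right _ _))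
  refine ⟨Y, lt_of_le_of_lt (Cardinal.lift_le.mpr (le_max_right _ _)) hY, fun i => ?_⟩
  obtain ⟨ν, hν⟩ := hmono i.succ
  exact ⟨ν, hν⟩

theorem pow_of_triple {κ : Cardinal.{u}}
    (h : ∀ c : Branch κ → Branch κ → Ordinal.{u}, AlmostRegressive κ c →
      ∃ x y z : Branch κ, x ≠ y ∧ x ≠ z ∧ y ≠ z ∧ c x y = c x z ∧ c x y = c y z)
    (μ : Cardinal.{u}) (hμ : μ < κ) : (2 : Cardinal.{u}) ^ μ < (2 : Cardinal.{u}) ^ κ := by
  have mk_branch : ∀ ρ : Cardinal.{u}, #(Branch ρ) =
      Cardinal.lift.{u + 1} ((2 : Cardinal.{u}) ^ ρ) := by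
    intro ρ
    rw [Branch, Cardinal.mk_arrow, Cardinal.mk_Iio_ordinal, Cardinal.card_ord, Cardinal.mk_bool]
    simp
  by_contra hcon
  push Not at hcon
  have hcard : #(Branch κ) ≤ #(Branch μ) := by
    rw [mk_branch, mk_branch, Cardinal.lift_le]
    exact hcon
  obtain ⟨e⟩ := hcard
  have hμo : μ.ord < κ.ord := Cardinal.ord_lt_ord.mpr hμ
  have hlt : ∀ x y : Branch κ, x ≠ y → Pool.Agent.Y911.DR.Delta (e x) (e y) < μ.ord := by
    intro x y hxy
    exact (Pool.Agent.Y911.DR.Delta_spec (fun h' => hxy (e.injective h'))).1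
  obtain ⟨x, y, z, hxy, hxz, hyz, h1, h2⟩ := h
    (fun x y => Pool.Agent.Y911.DR.Delta (e x) (e y))
    ⟨fun x y => Pool.Agent.Y911.DR.Delta_symm _ _, fun x y hxy => (hlt x y hxy).trans hμo,
      μ.ord, hμo, fun x y hxy => lt_max_of_lt_right (hlt x y hxy)⟩
  exact Pool.Agent.Y911.DR.delta_triple (fun h' => hxy (e.injective h'))
    (fun h' => hxz (e.injective h')) (fun h' => hyz (e.injective h')) h1 h2

/-- **Large monochromatic sets.** Let `κ` be uncountable. (1) Equivalent are: `2 ^ μ < 2 ^ κ` for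
all `μ < κ`; every almost regressive colouring has a monochromatic triple; for every `θ < κ` any
finite number of almost regressive colourings have a common monochromatic set of more than `θ`
elements. (2) There is an almost regressive colouring with two colours all of whose monochromatic
sets have at most `κ` elements. (3) If `κ ≤ 2 ^ λ` there are `λ` almost regressive colourings, each
with two colours, without common monochromatic triple. -/
theorem result (κ : Cardinal.{u}) (hκ : ℵ₀ < κ) :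
    List.TFAE [
      ∀ μ : Cardinal.{u}, μ < κ → (2 : Cardinal.{u}) ^ μ < (2 : Cardinal.{u}) ^ κ,
      ∀ c : Branch κ → Branch κ → Ordinal.{u}, AlmostRegressive κ c →
        ∃ x y z : Branch κ, x ≠ y ∧ x ≠ z ∧ y ≠ z ∧ c x y = c x z ∧ c x y = c y z,
      ∀ θ : Cardinal.{u}, θ < κ → ∀ (n : ℕ) (c : Fin n → Branch κ → Branch κ → Ordinal.{u}),
        (∀ i, AlmostRegressive κ (c i)) →
          ∃ Y : Set (Branch κ), Cardinal.lift.{u + 1} θ < #Y ∧
            ∀ i, ∃ ν : Ordinal.{u}, Monochromatic (c i) ν Y] ∧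
    (∃ c : Branch κ → Branch κ → Ordinal.{u}, AlmostRegressive κ c ∧ (∀ x y, c x y < 2) ∧
      ∀ (Y : Set (Branch κ)) (ν : Ordinal.{u}), Monochromatic c ν Y →
        #Y ≤ Cardinal.lift.{u + 1} κ) ∧
    (∀ L : Type u, κ ≤ 2 ^ #L → ∃ c : L → Branch κ → Branch κ → Ordinal.{u},
      (∀ i, AlmostRegressive κ (c i) ∧ ∀ x y, c i x y < 2) ∧
      ¬ ∃ x y z : Branch κ, x ≠ y ∧ x ≠ z ∧ y ≠ z ∧
        ∀ i, c i x y = c i x z ∧ c i x y = c i y z) := by
  classical
  refine ⟨?_, ?_, ?_⟩
  · tfae_have 1 → 3 := fun h θ hθ n c hc => large hκ h θ hθ n c hc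
    tfae_have 3 → 2 := by
      intro h c hc
      obtain ⟨Y, hY, hmono⟩ := h 2 ((Cardinal.natCast_lt_aleph0 (n := 2)).trans hκ) 1
        (fun _ => c) (fun _ => hc)
      obtain ⟨ν, hν⟩ := hmono 0
      have h2 : ((3 : ℕ) : Cardinal) ≤ #Y := by
        have h3 : ((2 : ℕ) : Cardinal) < #Y := by simpa using hY
        have h4 := Order.succ_le_of_lt h3
        rwa [← Cardinal.nat_succ] at h4
      obtain ⟨t, ht, h3⟩ := Cardinal.le_mk_iff_exists_subset.mp h2
      have hfin : t.Finite := by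
        rw [← Cardinal.lt_aleph0_iff_set_finite, h3]
        exact Cardinal.natCast_lt_aleph0
      obtain ⟨s, rfl⟩ := hfin.exists_finset_coe
      have h4 : s.card = 3 := by
        have := h3
        simp only [Finset.coe_sort_coe, Cardinal.mk_coe_finset] at this
        exact_mod_cast this
      obtain ⟨x, y, z, hxy, hxz, hyz, rfl⟩ := Finset.card_eq_three.mp h4
      have hx : x ∈ Y := ht (by simp)
      have hy : y ∈ Y := ht (by simp)
      have hz : z ∈ Y := ht (by simp)
      exact ⟨x, y, z, hxy, hxz, hyz, by rw [hν x hx y hy hxy, hν x hx z hz hxz],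
        by rw [hν x hx y hy hxy, hν y hy z hz hyz]⟩
    tfae_have 2 → 1 := fun h μ hμ => pow_of_triple h μ hμ
    tfae_finish
  · obtain ⟨c, h1, h2, h3⟩ := Pool.Agent.Y911.DR.sierpinski κ hκ.le
    exact ⟨c, almostRegressive_of_lt_two hκ h1 h2, h2, fun Y ν hY => h3 Y ν hY⟩
  · intro L hL
    obtain ⟨c, h1, h2, h3⟩ := Pool.Agent.Y911.DR.bits κ L hL
    exact ⟨c, fun i => ⟨almostRegressive_of_lt_two hκ (h1 i) (h2 i), h2 i⟩, h3⟩

end Pool.Agent.Results.MP_9a42a6_lc.LargeHomogeneousSets
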